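import Pool.Agent.H19.KL.Stmts

/-! # Project KL, module NCD: the noise integrals are smooth -/

set_option autoImplicit false

open MeasureTheory Set
open scoped ContDiff

namespace Pool.Agent.H19.KL

open Pool.Agent.H84 Pool.Agent.H84.Sym Pool.Agent.H84.Sym.P2x Pool.Agent.H84.Sym.C29

section NCD

variable {E : Type} [NormedAddCommGroup E] [InnerProductSpace ℝ E]

private theorem ncd_gc_exp (s : ℝ) (y : E) : GC (fun x : E => Real.exp (s * inner ℝ x y)) := by
  refine ⟨by fun_prop, 1, |s| * ‖y‖, fun x => ?_⟩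
  rw [abs_of_pos (Real.exp_pos _), one_mul]
  apply Real.exp_le_exp.2
  calc s * inner ℝ x y ≤ |s * inner ℝ x y| := le_abs_self _
    _ = |s| * |inner ℝ x y| := abs_mul _ _
    _ ≤ |s| * (‖x‖ * ‖y‖) := mul_le_mul_of_nonneg_left (abs_real_inner_le_norm x y) (abs_nonneg s)
    _ = |s| * ‖y‖ * ‖x‖ := by ring

omit [InnerProductSpace ℝ E] in
private theorem ncd_gc_expn (c : ℝ) : GC (fun x : E => Real.exp (c * ‖x‖)) :=
  ⟨by fun_prop, 1, c, fun x => by rw [abs_of_pos (Real.exp_pos _), one_mul]⟩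

omit [InnerProductSpace ℝ E] in
private theorem ncd_gc_norm : GC (fun x : E => ‖x‖) := ⟨continuous_norm, Gr.nrm⟩

private theorem ncd_gc_inner (w : E) : GC (fun x : E => (inner ℝ x w : ℝ)) := by
  refine ⟨by fun_prop, Gr.of_le (Gr.mul (Gr.nrm (H := E)) (GC.const (H := E) ‖w‖).2) fun x => ?_⟩
  rw [abs_of_nonneg (mul_nonneg (norm_nonneg x) (norm_nonneg w))]
  exact abs_real_inner_le_norm x w

variable [FiniteDimensional ℝ E] [MeasurableSpace E] [BorelSpace E]

/-- the Laplace transform with respect to `mu V` -/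
private noncomputable def JJ (V : E → ℝ) (s : ℝ) (F : E → ℝ) (y : E) : ℝ :=
  ∫ x, F x * Real.exp (s * inner ℝ x y) ∂(mu V)

private theorem JJ_deriv {V : E → ℝ} {t C : ℝ} (hV : Pot V t C) {s : ℝ} (hs : 0 < s) {F : E → ℝ}
    (hF : GC F) (y₀ : E) : HasFDerivAt (JJ V s F)
      (∫ x, (F x * (s * Real.exp (s * inner ℝ x y₀))) • innerSL ℝ x ∂(mu V)) y₀ := by
  have hbd : GC (fun x : E => |F x| * (s * Real.exp (s * (‖y₀‖ + 1) * ‖x‖)) * ‖x‖) :=
    (hF.abs.mul ((GC.const s).mul (ncd_gc_expn _))).mul ncd_gc_norm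
  refine hasFDerivAt_integral_of_dominated_of_fderiv_le (μ := mu V)
    (F := fun y x => F x * Real.exp (s * inner ℝ x y))
    (F' := fun y x => (F x * (s * Real.exp (s * inner ℝ x y))) • innerSL ℝ x)
    (bound := fun x => |F x| * (s * Real.exp (s * (‖y₀‖ + 1) * ‖x‖)) * ‖x‖)
    (Metric.ball_mem_nhds y₀ one_pos) ?_ ?_ ?_ ?_ ?_ ?_
  · refine Filter.Eventually.of_forall fun y => ?_
    exact (hF.mul (ncd_gc_exp s y)).1.aestronglyMeasurable
  · exact (hF.mul (ncd_gc_exp s y₀)).integrable hV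
  · have hc : Continuous (fun x : E => (F x * (s * Real.exp (s * inner ℝ x y₀))) • innerSL ℝ x) :=
      (hF.1.mul (by fun_prop)).smul (innerSL ℝ (E := E)).continuous
    exact hc.aestronglyMeasurable
  · refine Filter.Eventually.of_forall fun x y hy => ?_
    rw [norm_smul, innerSL_apply_norm, Real.norm_eq_abs, abs_mul, abs_mul, abs_of_pos hs,
      abs_of_pos (Real.exp_pos _)]
    have hy' : ‖y‖ ≤ ‖y₀‖ + 1 := by
      have h1 : ‖y - y₀‖ < 1 := by
        rw [← dist_eq_norm]; exact hy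
      have h2 := norm_sub_norm_le y y₀
      linarith
    have h3 : Real.exp (s * inner ℝ x y) ≤ Real.exp (s * (‖y₀‖ + 1) * ‖x‖) := by
      apply Real.exp_le_exp.2
      have h4 : (inner ℝ x y : ℝ) ≤ ‖x‖ * ‖y‖ := real_inner_le_norm x y
      have h5 : ‖x‖ * ‖y‖ ≤ ‖x‖ * (‖y₀‖ + 1) := mul_le_mul_of_nonneg_left hy' (norm_nonneg x)
      calc s * inner ℝ x y ≤ s * (‖x‖ * (‖y₀‖ + 1)) :=
            mul_le_mul_of_nonneg_left (h4.trans h5) hs.le
        _ = _ := by ring
    gcongr
  · exact hbd.integrable hV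
  · refine Filter.Eventually.of_forall fun x y _ => ?_
    have h1 : HasFDerivAt (fun y : E => (inner ℝ x y : ℝ)) (innerSL ℝ x) y :=
      (innerSL ℝ x).hasFDerivAt
    have h2 := ((h1.const_mul s).exp).const_mul (F x)
    refine h2.congr_fderiv ?_
    ext w
    simp only [smul_apply, innerSL_apply_apply, smul_eq_mul]
    ring

private theorem JJ_fderiv {V : E → ℝ} {t C : ℝ} (hV : Pot V t C) {s : ℝ} (hs : 0 < s) {F : E → ℝ}
    (hF : GC F) (y w : E) : fderiv ℝ (JJ V s F) y w = s * JJ V s (fun x => F x * inner ℝ x w) y := by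
  rw [(JJ_deriv hV hs hF y).fderiv]
  have hint : Integrable (fun x : E => (F x * (s * Real.exp (s * inner ℝ x y))) • innerSL ℝ x)
      (mu V) := by
    have hbd : GC (fun x : E => |F x * (s * Real.exp (s * inner ℝ x y))| * ‖x‖) :=
      ((hF.mul ((GC.const s).mul (ncd_gc_exp s y))).abs).mul ncd_gc_norm
    have hc : Continuous (fun x : E => (F x * (s * Real.exp (s * inner ℝ x y))) • innerSL ℝ x) :=
      (hF.1.mul (by fun_prop)).smul (innerSL ℝ (E := E)).continuous
    refine (hbd.integrable hV).mono' hc.aestronglyMeasurable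
      (Filter.Eventually.of_forall fun x => ?_)
    rw [norm_smul, innerSL_apply_norm, Real.norm_eq_abs]
  rw [ContinuousLinearMap.integral_apply hint]
  unfold JJ
  rw [← integral_const_mul]
  refine integral_congr_ae (Filter.Eventually.of_forall fun x => ?_)
  simp only [smul_apply, innerSL_apply_apply, smul_eq_mul]
  ring

private theorem JJ_contDiff {V : E → ℝ} {t C : ℝ} (hV : Pot V t C) {s : ℝ} (hs : 0 < s) (n : ℕ) :
    ∀ F : E → ℝ, GC F → ContDiff ℝ n (JJ V s F) := by
  induction n with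
  | zero =>
    intro F hF
    rw [Nat.cast_zero, contDiff_zero]
    have hd : Differentiable ℝ (JJ V s F) := fun y => (JJ_deriv hV hs hF y).differentiableAt
    exact hd.continuous
  | succ n ih =>
    intro F hF
    rw [Nat.cast_succ, contDiff_succ_iff_fderiv_apply]
    refine ⟨fun y => (JJ_deriv hV hs hF y).differentiableAt, by simp, fun w => ?_⟩
    have e : (fun y => fderiv ℝ (JJ V s F) y w) =
        fun y => s * JJ V s (fun x => F x * inner ℝ x w) y := by
      ext y
      exact JJ_fderiv hV hs hF y w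
    rw [e]
    exact contDiff_const.mul (ih _ (hF.mul (ncd_gc_inner w)))

private theorem NI_JJ {U : E → ℝ} {s : ℝ} (h : Adm U s) (F : E → ℝ) (y : E) :
    NI U s F y = Real.exp (-(s * ‖y‖ ^ 2 / 2)) * JJ (pt U s 0) s F y := by
  unfold NI JJ
  rw [integral_mu (h.cont 0), ← integral_const_mul]
  refine integral_congr_ae (Filter.Eventually.of_forall fun x => ?_)
  simp only
  rw [pt_shift U s y 0 x]
  rw [zero_sub, norm_zero, inner_neg_left, real_inner_comm x y]
  have e : -(pt U s 0 x + (s * -inner ℝ x y + s * (‖y‖ ^ 2 - 0 ^ 2) / 2)) =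
      -(s * ‖y‖ ^ 2 / 2) + (s * inner ℝ x y + -pt U s 0 x) := by ring
  rw [e, Real.exp_add, Real.exp_add]
  ring

end NCD

theorem ncd_thm (E : Type) [NormedAddCommGroup E] [InnerProductSpace ℝ E]
    [FiniteDimensional ℝ E] [MeasurableSpace E] [BorelSpace E] : NCDStmt E := by
  intro U s hU F hF
  obtain ⟨hs, t, C, hV⟩ := id hU
  have hg : ∀ y : E, HasFDerivAt (fun y : E => Real.exp (-(s * ‖y‖ ^ 2 / 2)))
      (-(s * Real.exp (-(s * ‖y‖ ^ 2 / 2))) • innerSL ℝ y) y := by
    intro y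
    have h1 : HasFDerivAt (fun x : E => ‖x‖ ^ 2) (2 • (innerSL ℝ y)) y := by
      have := (hasFDerivAt_id (𝕜 := ℝ) y).norm_sq
      simpa using this
    have h2 := ((h1.const_mul (-(s / 2)))).exp
    have e : (fun y : E => Real.exp (-(s * ‖y‖ ^ 2 / 2))) = fun y : E =>
        Real.exp (-(s / 2) * ‖y‖ ^ 2) := by
      ext x; congr 1; ring
    rw [e]
    refine h2.congr_fderiv ?_
    ext w
    simp only [smul_apply, innerSL_apply_apply, smul_eq_mul, nsmul_eq_mul]
    push_cast
    have e2 : -(s / 2) * ‖y‖ ^ 2 = -(s * ‖y‖ ^ 2 / 2) := by ring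
    rw [e2]
    ring
  have hN : NI U s F = fun y => Real.exp (-(s * ‖y‖ ^ 2 / 2)) * JJ (pt U s 0) s F y := by
    ext y
    exact NI_JJ hU F y
  constructor
  · rw [hN]
    have h1 : ContDiff ℝ 2 (fun y : E => Real.exp (-(s * ‖y‖ ^ 2 / 2))) :=
      ((contDiff_const.mul (contDiff_id.norm_sq ℝ)).div_const _).neg.exp
    exact h1.mul (JJ_contDiff hV hs 2 F hF)
  · intro y w
    have h2 := (hg y).mul (JJ_deriv hV hs hF y)
    have e0 : NI U s F = (fun y : E => Real.exp (-(s * ‖y‖ ^ 2 / 2))) * JJ (pt U s 0) s F := hN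
    rw [← e0] at h2
    have h3 := h2.fderiv
    have h4 : (∫ x, (F x * (s * Real.exp (s * inner ℝ x y))) • innerSL ℝ x ∂(mu (pt U s 0))) w =
        s * JJ (pt U s 0) s (fun x => F x * inner ℝ x w) y := by
      rw [← JJ_fderiv hV hs hF y w, (JJ_deriv hV hs hF y).fderiv]
    rw [h3, NI_JJ hU, NI_JJ hU]
    simp only [add_apply, smul_apply, innerSL_apply_apply, smul_eq_mul]
    rw [h4]
    ring

end Pool.Agent.H19.KL
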