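import Pool.Agent.H19.KL.Stmts

/-! # Project KL, module STP: one step of the self-improvement -/

set_option autoImplicit false

open MeasureTheory Set
open scoped ContDiff

namespace Pool.Agent.H19.KL

open Pool.Agent.H84 Pool.Agent.H84.Sym Pool.Agent.H84.Sym.P2x Pool.Agent.H84.Sym.C29

section STP

variable {E : Type} [NormedAddCommGroup E] [InnerProductSpace ℝ E]
  [FiniteDimensional ℝ E] [MeasurableSpace E] [BorelSpace E]

/-- Jensen for the square of a square -/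
private theorem stp_rev {U : E → ℝ} {s : ℝ} (h : Adm U s) {X : E → ℝ} (hX : GC X) {Γ : ℝ}
    (hΓ : 1 ≤ Γ) (y : E)
    (h4 : av U s (fun x => X x ^ 4) y ≤ Γ ^ 2 * av U s X y ^ 4) :
    av U s (fun x => X x ^ 2) y ≤ Γ * av U s X y ^ 2 := by
  set a : ℝ := av U s (fun x => X x ^ 2) y with ha
  have hX2 : GC (fun x => X x ^ 2) := hX.sq
  have hX4 : GC (fun x => X x ^ 4) := by
    have := hX2.sq
    refine (funext fun x => ?_ : (fun x => (X x ^ 2) ^ 2) = fun x => X x ^ 4) ▸ this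
    ring
  have h1 : 0 ≤ av U s (fun x => X x ^ 4 - (2 * a) * X x ^ 2 + a ^ 2) y := by
    refine av_nonneg h (fun x => ?_) y
    have : X x ^ 4 - (2 * a) * X x ^ 2 + a ^ 2 = (X x ^ 2 - a) ^ 2 := by ring
    rw [this]
    positivity
  rw [av_add h (hX4.sub ((GC.const (2 * a)).mul hX2)) (GC.const (a ^ 2)),
    av_sub h hX4 ((GC.const (2 * a)).mul hX2), av_const_mul h, av_const h, ← ha] at h1
  have h2 : a ^ 2 ≤ (Γ * av U s X y ^ 2) ^ 2 := by
    have e : (Γ * av U s X y ^ 2) ^ 2 = Γ ^ 2 * av U s X y ^ 4 := by ring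
    rw [e]
    nlinarith
  exact le_of_sq_le_sq h2 (by positivity)

/-- the pointwise bound for the inverse of the coefficients -/
private theorem stp_bound {U : E → ℝ} {s : ℝ} (h : Adm U s) {D X : E → ℝ} (hD : GC D) (hX : GC X)
    {Γ lam1 lam2 : ℝ} (hl1 : 0 < lam1) (hl2 : 0 < lam2) (y : E) (hM : 0 < av U s X y)
    (h4 : av U s (fun x => X x ^ 4) y ≤ Γ ^ 2 * av U s X y ^ 4) :
    2 * av U s (fun x => D x * (1 + X x ^ 2 / s)) y * (av U s X y ^ 2)⁻¹ ≤
      lam1 * av U s (fun x => D x ^ 2) y + lam1⁻¹ * (av U s X y ^ 4)⁻¹ +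
        s⁻¹ * (lam2 * av U s (fun x => D x ^ 2) y + lam2⁻¹ * Γ ^ 2) := by
  have hs : 0 < s := h.1
  set M : ℝ := av U s X y with hMdef
  have hX2 : GC (fun x => X x ^ 2) := hX.sq
  have hX4 : GC (fun x => X x ^ 4) := by
    have := hX2.sq
    refine (funext fun x => ?_ : (fun x => (X x ^ 2) ^ 2) = fun x => X x ^ 4) ▸ this
    ring
  have hD2 : GC (fun x => D x ^ 2) := hD.sq
  have hDX : GC (fun x => D x * X x ^ 2) := hD.mul hX2
  -- (a)
  have ha : 2 * (M ^ 2)⁻¹ * av U s D y ≤ lam1 * av U s (fun x => D x ^ 2) y + lam1⁻¹ * (M ^ 4)⁻¹ := by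
    rw [← av_const_mul h, ← av_const_mul h, ← av_const h (lam1⁻¹ * (M ^ 4)⁻¹) y,
      ← av_add h ((GC.const lam1).mul hD2) (GC.const _)]
    refine av_mono h ((GC.const _).mul hD) (((GC.const lam1).mul hD2).add (GC.const _))
      (fun x => ?_) y
    have e1 : lam1 * D x ^ 2 + lam1⁻¹ * (M ^ 4)⁻¹ - 2 * (M ^ 2)⁻¹ * D x =
        lam1⁻¹ * (lam1 * D x - (M ^ 2)⁻¹) ^ 2 := by
      field_simp
      ring
    have e2 : 0 ≤ lam1⁻¹ * (lam1 * D x - (M ^ 2)⁻¹) ^ 2 := by positivity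
    linarith
  -- (b)
  have hb : 2 * (M ^ 2)⁻¹ * av U s (fun x => D x * X x ^ 2) y ≤
      lam2 * av U s (fun x => D x ^ 2) y + lam2⁻¹ * Γ ^ 2 := by
    have h5 : 2 * (M ^ 2)⁻¹ * av U s (fun x => D x * X x ^ 2) y ≤
        lam2 * av U s (fun x => D x ^ 2) y + (lam2⁻¹ * (M ^ 4)⁻¹) * av U s (fun x => X x ^ 4) y := by
      rw [← av_const_mul h, ← av_const_mul h, ← av_const_mul h,
        ← av_add h ((GC.const lam2).mul hD2) ((GC.const _).mul hX4)]
      refine av_mono h ((GC.const _).mul hDX) (((GC.const lam2).mul hD2).add ((GC.const _).mul hX4))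
        (fun x => ?_) y
      have e1 : lam2 * D x ^ 2 + (lam2⁻¹ * (M ^ 4)⁻¹) * X x ^ 4 - 2 * (M ^ 2)⁻¹ * (D x * X x ^ 2) =
          lam2⁻¹ * (lam2 * D x - (M ^ 2)⁻¹ * X x ^ 2) ^ 2 := by
        field_simp
        ring
      have e2 : 0 ≤ lam2⁻¹ * (lam2 * D x - (M ^ 2)⁻¹ * X x ^ 2) ^ 2 := by positivity
      linarith
    have h6 : (lam2⁻¹ * (M ^ 4)⁻¹) * av U s (fun x => X x ^ 4) y ≤ lam2⁻¹ * Γ ^ 2 := by
      calc (lam2⁻¹ * (M ^ 4)⁻¹) * av U s (fun x => X x ^ 4) y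
          ≤ (lam2⁻¹ * (M ^ 4)⁻¹) * (Γ ^ 2 * M ^ 4) :=
            mul_le_mul_of_nonneg_left h4 (by positivity)
        _ = lam2⁻¹ * Γ ^ 2 := by field_simp
    linarith
  -- the sum
  have hsum : av U s (fun x => D x * (1 + X x ^ 2 / s)) y =
      av U s D y + s⁻¹ * av U s (fun x => D x * X x ^ 2) y := by
    rw [← av_const_mul h, ← av_add h hD ((GC.const _).mul hDX)]
    congr 1
    ext x
    ring
  rw [hsum]
  have e3 : 2 * (av U s D y + s⁻¹ * av U s (fun x => D x * X x ^ 2) y) * (M ^ 2)⁻¹ =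
      2 * (M ^ 2)⁻¹ * av U s D y + s⁻¹ * (2 * (M ^ 2)⁻¹ * av U s (fun x => D x * X x ^ 2) y) := by
    ring
  rw [e3]
  exact add_le_add ha (mul_le_mul_of_nonneg_left hb (by positivity))

end STP

theorem stp_thm (E : Type) [NormedAddCommGroup E] [InnerProductSpace ℝ E]
    [FiniteDimensional ℝ E] [MeasurableSpace E] [BorelSpace E]
    (hHES : HESStmt E) (hGRO : GROStmt E) (hFUB : FUBStmt E) (_hLIP : LIPStmt E)
    (hST1 : ST1Stmt E) (hST2 : ST2Stmt E) (hBLW : BLWStmt E) (hMLB : MLBStmt E)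
    (hHMI : HMIStmt E) (hDEC : DECStmt E) : STPStmt E := by
  intro ι _ v U t C c D X β Γ B m L hE hU hp hd hKL hL
  have hΓ := hd.Γ_one
  have hB := hd.B_one
  have hm := hd.m_pos
  have hΓ0 : 0 < Γ := by linarith
  have hB0 : 0 < B := by linarith
  have hBΓ : 1 ≤ B * Γ := by nlinarith
  have hK1 : 6 ≤ K1 Γ B := by
    unfold K1
    nlinarith
  have hK10 : 0 < K1 Γ B := by linarith
  have hL0 : 0 < L := by linarith
  set s : ℝ := K1 Γ B / L with hs
  have hs0 : 0 < s := div_pos hK10 hL0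
  have hs1 : s ≤ 1 := (div_le_one hL0).2 hKL
  set s₀ : ℝ := 1 / (16 * Γ * L) with hs₀
  have hs₀0 : 0 < s₀ := by positivity
  have hss : s₀ < s := by
    rw [hs₀, hs, div_lt_div_iff₀ (by positivity) hL0]
    have h1 : 1 * L < K1 Γ B * (16 * Γ) * L := by
      apply mul_lt_mul_of_pos_right _ hL0
      nlinarith
    linarith [h1, mul_assoc (K1 Γ B) (16 * Γ) L]
  have hsr : 16 * Γ * s / s₀ = 256 * Γ ^ 2 * K1 Γ B := by
    rw [hs, hs₀]
    field_simp
    ring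
  have hA : Adm U s := adm_of_pot hU hs0
  obtain ⟨⟨C', hW⟩, -, -⟩ := hHES U t C s hU hs0
  obtain ⟨-, -, hpW⟩ := hFUB U t C s hU hs0 (fun _ => 0) (GC.const 0)
  have hpW' : IsProbabilityMeasure (mu (WW U s)) := hpW hp
  have hXint : ∀ j, 0 < ∫ x, X j x ∂(mu U) := fun j => lt_of_lt_of_le hm (hd.m_le j)
  have hM0 : ∀ j y, 0 < av U s (X j) y := fun j y =>
    av_pos' hU hs0 (hd.X_gc j) (hd.X_nonneg j) (hXint j) y
  have hMgc : ∀ j, GC (av U s (X j)) := fun j => hGRO U s hA _ (hd.X_gc j)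
  -- the second moments
  have hrev2 : ∀ j s' y, 0 < s' → av U s' (fun x => X j x ^ 2) y ≤ Γ * av U s' (X j) y ^ 2 :=
    fun j s' y hs' => stp_rev (adm_of_pot hU hs') (hd.X_gc j) hΓ y (hd.rev j s' y hs')
  -- the negative moments
  set Q : ℝ := Real.exp (128 * Γ ^ 2 * K1 Γ B + 8 * Γ + 1) / m ^ 2 with hQ
  have hQ0 : 0 < Q := by positivity
  have hneg : ∀ j, GC (fun y => (av U s (X j) y ^ 4)⁻¹) ∧
      ∫ y, (av U s (X j) y ^ 4)⁻¹ ∂(mu (WW U s)) ≤ Q ^ 2 := by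
    intro j
    obtain ⟨h1, h2⟩ := hST2 U t C hU hp (X j) (hd.X_gc j) (hd.X_nonneg j) (hXint j) Γ s₀ s hΓ
      (hrev2 j) hs₀0 hss
    refine ⟨h1, h2.trans ?_⟩
    have h3 := hST1 U t C L hU hp hL0 hL (X j) (hd.X_gc j) (hd.X_nonneg j) Γ m s₀ hΓ
      (hrev2 j) hm (hd.m_le j) hs₀0 (by
        rw [hs₀]
        apply le_of_eq
        field_simp)
    calc Real.exp (16 * Γ * s / s₀) * ∫ y, (av U s₀ (X j) y ^ 4)⁻¹ ∂(mu (WW U s₀))
        ≤ Real.exp (16 * Γ * s / s₀) * (Real.exp (16 * Γ + 2) / m ^ 4) :=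
          mul_le_mul_of_nonneg_left h3 (Real.exp_pos _).le
      _ = Q ^ 2 := by
          rw [hQ, hsr, div_pow, ← Real.exp_nat_mul, ← pow_mul, ← mul_div_assoc, ← Real.exp_add]
          congr 2
          push_cast
          ring
  have hM2gc : ∀ j, GC (fun y => (av U s (X j) y ^ 2)⁻¹) := by
    intro j
    refine ⟨((hMgc j).1.pow 2).inv₀ fun y => (pow_pos (hM0 j y) 2).ne', ?_⟩
    refine Gr.of_le (Gr.add (GC.const (H := E) 1).2 (hneg j).1.2) fun y => ?_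
    have h1 : 0 < (av U s (X j) y ^ 2)⁻¹ := inv_pos.2 (pow_pos (hM0 j y) 2)
    have h2 : (av U s (X j) y ^ 4)⁻¹ = (av U s (X j) y ^ 2)⁻¹ ^ 2 := by
      rw [← inv_pow, ← inv_pow]; ring
    rw [h2, abs_of_pos h1, abs_of_pos (by positivity)]
    nlinarith [sq_nonneg ((av U s (X j) y ^ 2)⁻¹ - 1)]
  -- the new coefficients
  set N : ι → E → ℝ := fun j => av U s (fun x => D j x * (1 + X j x ^ 2 / s)) with hN
  have hNgc0 : ∀ j, GC (fun x => D j x * (1 + X j x ^ 2 / s)) := by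
    intro j
    have h1 : GC (fun x => D j x * (1 + X j x ^ 2 * s⁻¹)) :=
      (hd.D_gc j).mul ((GC.const 1).add ((hd.X_gc j).sq.mul (GC.const s⁻¹)))
    simpa only [div_eq_mul_inv] using h1
  have hNgc : ∀ j, GC (N j) := fun j => hGRO U s hA _ (hNgc0 j)
  have hN0 : ∀ j y, 0 < N j y := by
    intro j y
    have h1 : av U s (fun _ => (1:ℝ)) y ≤ N j y := by
      refine av_mono hA (GC.const 1) (hNgc0 j) (fun x => ?_) y
      have h2 := hd.D_one j x
      have h3 : 0 ≤ X j x ^ 2 / s := by positivity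
      nlinarith
    rw [av_const hA] at h1
    linarith
  set c' : ι → E → ℝ := fun j y => β j * av U s (X j) y ^ 2 / (2 * N j y) with hc'
  have hc'c : ∀ j, Continuous (c' j) := fun j =>
    (continuous_const.mul ((hMgc j).1.pow 2)).div (continuous_const.mul (hNgc j).1)
      fun y => (mul_pos two_pos (hN0 j y)).ne'
  have hc'0 : ∀ j y, 0 < c' j y := fun j y =>
    div_pos (mul_pos (hd.β_pos j) (pow_pos (hM0 j y) 2)) (mul_pos two_pos (hN0 j y))
  have hc'le : ∀ j y, c' j y ≤ av U s (fun x => c j x * (s * β j) / (c j x + s * β j)) y := by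
    intro j y
    have h1 := hMLB U s hA hs1 (c j) (D j) (X j) (β j) (hd.c_cont j) (hd.c_pos j) (hd.D_gc j)
      (hd.D_one j) (hd.X_gc j) (hd.X_nonneg j) (hd.β_pos j) (hd.low j) y
    simp only [hc']
    rw [div_le_iff₀ (mul_pos two_pos (hN0 j y))]
    calc β j * av U s (X j) y ^ 2 ≤ _ := h1
      _ = _ := by ring
  have hhess : ∀ y w, ∑ j, c' j y * (inner ℝ (v j) w) ^ 2 ≤ fderiv ℝ (fderiv ℝ (WW U s)) y w w := by
    intro y w
    refine (Finset.sum_le_sum fun j _ => ?_).trans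
      (hBLW ι v U t C s hU hs0 c β hd.c_cont hd.c_pos hd.hess hd.β_pos hd.tight y w)
    exact mul_le_mul_of_nonneg_right (hc'le j y) (sq_nonneg _)
  have hinv : ∀ j y, (c' j y)⁻¹ = (β j)⁻¹ * (2 * N j y * (av U s (X j) y ^ 2)⁻¹) := by
    intro j y
    simp only [hc']
    rw [inv_div, div_eq_mul_inv, mul_inv]
    ring
  have hinvgc : ∀ j, GC (fun y => 2 * N j y * (av U s (X j) y ^ 2)⁻¹) := fun j =>
    ((GC.const 2).mul (hNgc j)).mul (hM2gc j)
  have hint : ∀ j, Integrable (fun y => (c' j y)⁻¹) (mu (WW U s)) := by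
    intro j
    have e : (fun y => (c' j y)⁻¹) = fun y => (β j)⁻¹ * (2 * N j y * (av U s (X j) y ^ 2)⁻¹) :=
      funext (hinv j)
    rw [e]
    exact ((GC.const _).mul (hinvgc j)).integrable hW
  -- the constant
  set Lam : ℝ := 2 * B * Q + 2 * B * Γ / s with hLam
  have hLam0 : 0 < Lam := by positivity
  have hbd : ∀ j, β j * ∫ y, (c' j y)⁻¹ ∂(mu (WW U s)) ≤ Lam := by
    intro j
    have e1 : β j * ∫ y, (c' j y)⁻¹ ∂(mu (WW U s)) =
        ∫ y, 2 * N j y * (av U s (X j) y ^ 2)⁻¹ ∂(mu (WW U s)) := by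
      rw [← integral_const_mul]
      congr 1
      ext y
      rw [hinv j y, ← mul_assoc, mul_inv_cancel₀ (hd.β_pos j).ne', one_mul]
    rw [e1]
    have hl1 : 0 < Q / B := by positivity
    have hl2 : 0 < Γ / B := by positivity
    have hD2gc : GC (fun y => av U s (fun x => D j x ^ 2) y) := hGRO U s hA _ (hd.D_gc j).sq
    have hG1 : GC (fun y => (Q / B) * av U s (fun x => D j x ^ 2) y) := (GC.const _).mul hD2gc
    have hG2 : GC (fun y => (Q / B)⁻¹ * (av U s (X j) y ^ 4)⁻¹) := (GC.const _).mul (hneg j).1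
    have hG3 : GC (fun y => s⁻¹ * ((Γ / B) * av U s (fun x => D j x ^ 2) y + (Γ / B)⁻¹ * Γ ^ 2)) :=
      (GC.const _).mul (((GC.const _).mul hD2gc).add (GC.const _))
    have hG4 : GC (fun y => (Γ / B) * av U s (fun x => D j x ^ 2) y) := (GC.const _).mul hD2gc
    have h5 : ∫ y, 2 * N j y * (av U s (X j) y ^ 2)⁻¹ ∂(mu (WW U s)) ≤
        ∫ y, ((Q / B) * av U s (fun x => D j x ^ 2) y + (Q / B)⁻¹ * (av U s (X j) y ^ 4)⁻¹) +
          s⁻¹ * ((Γ / B) * av U s (fun x => D j x ^ 2) y + (Γ / B)⁻¹ * Γ ^ 2) ∂(mu (WW U s)) := by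
      refine integral_mono ((hinvgc j).integrable hW) (((hG1.add hG2).add hG3).integrable hW)
        fun y => ?_
      exact stp_bound hA (hd.D_gc j) (hd.X_gc j) hl1 hl2 y (hM0 j y) (hd.rev j s y hs0)
    refine h5.trans ?_
    rw [integral_add ((hG1.add hG2).integrable hW) (hG3.integrable hW),
      integral_add (hG1.integrable hW) (hG2.integrable hW), integral_const_mul,
      integral_const_mul, integral_const_mul,
      integral_add (hG4.integrable hW) ((GC.const ((Γ / B)⁻¹ * Γ ^ 2)).integrable hW),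
      integral_const_mul, integral_const]
    have h6 : ∫ y, av U s (fun x => D j x ^ 2) y ∂(mu (WW U s)) ≤ B ^ 2 := by
      rw [(hFUB U t C s hU hs0 _ (hd.D_gc j).sq).1]
      exact hd.D_sq j
    have h7 := (hneg j).2
    have h8 : (mu (WW U s)).real univ = 1 := by simp
    rw [h8, one_smul]
    have h9 : (Q / B) * ∫ y, av U s (fun x => D j x ^ 2) y ∂(mu (WW U s)) ≤ (Q / B) * B ^ 2 :=
      mul_le_mul_of_nonneg_left h6 hl1.le
    have h10 : (Q / B)⁻¹ * ∫ y, (av U s (X j) y ^ 4)⁻¹ ∂(mu (WW U s)) ≤ (Q / B)⁻¹ * Q ^ 2 :=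
      mul_le_mul_of_nonneg_left h7 (by positivity)
    have h11 : (Γ / B) * ∫ y, av U s (fun x => D j x ^ 2) y ∂(mu (WW U s)) ≤ (Γ / B) * B ^ 2 :=
      mul_le_mul_of_nonneg_left h6 hl2.le
    have h12 : s⁻¹ * ((Γ / B) * ∫ y, av U s (fun x => D j x ^ 2) y ∂(mu (WW U s)) +
        (Γ / B)⁻¹ * Γ ^ 2) ≤ s⁻¹ * ((Γ / B) * B ^ 2 + (Γ / B)⁻¹ * Γ ^ 2) :=
      mul_le_mul_of_nonneg_left (by linarith) (by positivity)
    have e2 : (Q / B) * B ^ 2 + (Q / B)⁻¹ * Q ^ 2 + s⁻¹ * ((Γ / B) * B ^ 2 + (Γ / B)⁻¹ * Γ ^ 2) =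
        Lam := by
      rw [hLam]
      field_simp
      ring
    linarith
  have hGW : GPC (mu (WW U s)) Lam := by
    refine hHMI ι v (WW U s) _ C' hE hW hpW' c' hc'c hc'0 hint hhess (fun j => β j / Lam)
      (fun j => (div_pos (hd.β_pos j) hLam0).le) (fun j => ?_) Lam hLam0 fun w => ?_
    · rw [div_mul_eq_mul_div, div_le_one hLam0]
      exact hbd j
    · have e3 : ∑ j, β j / Lam * (inner ℝ (v j) w) ^ 2 = ‖w‖ ^ 2 / Lam := by
        rw [← hd.tight w, Finset.sum_div]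
        refine Finset.sum_congr rfl fun j _ => ?_
        ring
      rw [e3, mul_div_cancel₀ _ hLam0.ne']
  have hfin := hDEC U t C s Lam hU hp hs0 hLam0.le hGW
  have e4 : Lam + 1 / s = L / 2 + K2 Γ B m := by
    have e5 : K2 Γ B m = 2 * B * Q := by
      rw [hQ]
      unfold K2
      ring
    rw [hLam, e5, hs]
    have e6 : K1 Γ B = 2 * (2 * B * Γ + 1) := rfl
    have e7 : (2 * B * Γ + 1) ≠ 0 := by positivity
    rw [e6]
    field_simp
    ring
  rw [← e4]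
  exact hfin

end Pool.Agent.H19.KL
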